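import Pool.Agent.N207.AX.Conj

/-!
# Near relations between independent functions at almost all points

The library's theorem on near relations (`Y890.MV.nfM`) for all degrees, heights, number fields and precisions at once,
and for all conjugates of the points.
-/

set_option autoImplicit false
set_option linter.unusedSectionVars false

open NumberField Filter

namespace Pool.Agent.N207.NR

open Pool.Agent.Y890.MV Pool.Agent.N207.GS Pool.Agent.N207.CF Pool.Agent.N207.AX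
open Pool.Agent.Y124 (Cov)

/-- independent functions are locally independent together with the coordinates -/
theorem locInd {X σ : Type} [Fintype X] {U : Set (X → ℂ)} {f : σ → (X → ℂ) → ℂ} (hU : IsPreconnected U)
    (hf : ∀ i, AnalyticOnNhd ℂ (f i) U) (h : Ind U f) {t0 : X → ℂ} (ht0 : t0 ∈ U) : LocIndM f t0 := by
  intro P hP
  set P' : MvPolynomial (σ ⊕ X) ℂ := MvPolynomial.rename Sum.swap P with hP'
  set p := MvPolynomial.sumAlgEquiv ℂ σ X P' with hp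
  have hev : ∀ t, evM f t p = MvPolynomial.eval (Sum.elim t (fun i => f i t)) P := by
    intro t
    have h1 := ev_sum (f := f) (id : σ → σ) P' t
    rw [MvPolynomial.rename_id] at h1
    rw [hp]
    refine h1.trans ?_
    rw [hP', MvPolynomial.eval_rename]
    congr 2
    funext o
    rcases o with i | i <;> rfl
  have h1 : ∀ x ∈ U, evM f x p = 0 := by
    have h2 := evM_an hf p
    refine h2.eqOn_zero_of_preconnected_of_eventuallyEq_zero hU ht0 ?_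
    filter_upwards [hP] with t ht
    rw [hev]
    exact ht
  have h2 : p = 0 := h p fun z hz => by
    have h3 := h1 z hz
    rw [evM_eq] at h3
    exact h3
  have h3 : P' = 0 := (MvPolynomial.sumAlgEquiv ℂ σ X).injective (h2.trans (map_zero _).symm)
  have hinj : Function.Injective (MvPolynomial.rename (R := ℂ) (Sum.swap : X ⊕ σ → σ ⊕ X)) :=
    MvPolynomial.rename_injective _ (Sum.swap_leftInverse.injective)
  exact hinj (h3.trans (map_zero _).symm)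

/-- the points at which some polynomial is small in comparison with one of its coefficients -/
def ExcS {X σ : Type} [Fintype X] (U : Set (X → ℂ)) (f : σ → (X → ℂ) → ℂ) (ψ : ℝ → ℝ) (K : Type) [Field K]
    [NumberField K] (io : K →+* ℂ) (k : ℕ) (ξ : Fin k → ℂ) (T : ℝ) : Set (X → K) :=
  {s | (∀ i, Y120.HtLe K T (s i)) ∧ (fun i => io (s i)) ∈ InnerM U k ∧ ∃ R : MvPolynomial σ ℂ,
    (∀ y, R.degreeOf y ≤ k) ∧
    (∀ m, ∃ c : Fin k → 𝓞 K, (∀ i (φ : K →+* ℂ), ‖φ (c i : K)‖ ≤ T ^ (k : ℝ)) ∧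
      R.coeff m = ∑ i, ξ i * io (c i : K)) ∧
    ∃ m₀, R.coeff m₀ ≠ 0 ∧
      ‖MvPolynomial.eval (fun y => f y fun i => io (s i)) R‖ ≤ T ^ (-ψ T) * ‖R.coeff m₀‖}

theorem few_near {X σ : Type} [Fintype X] [DecidableEq X] [Nonempty X] [Fintype σ] [DecidableEq σ]
    {U : Set (X → ℂ)} {f : σ → (X → ℂ) → ℂ} (hU : IsPreconnected U)
    (hf : ∀ i, AnalyticOnNhd ℂ (f i) U) (h : Ind U f) {ψ : ℝ → ℝ} (hψ : Tendsto ψ atTop atTop) :
    Few (X := X) fun K _ _ io k ξ T => ExcS U f ψ K io k ξ T := by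
  refine few_of _ (fun K _ _ io k ξ T s hs => hs.1) fun k ε hk hε => ?_
  obtain ⟨D, B, C, T₀, hC, hT₀, H⟩ := nfM stmZ stmClose stmCharts k f (InnerM U k) (innerM_compact _ _)
    (fun i t ht => hf i t (innerM_sub _ hk ht)) (fun t ht => locInd hU hf h (innerM_sub _ hk ht)) (Fin k) k (k : ℝ) ε hε
  obtain ⟨T₁, hT₁⟩ := eventually_atTop.1 (hψ.eventually_ge_atTop B)
  refine ⟨D, C, max T₀ T₁, hC, hT₀.trans (le_max_left _ _), fun K _ _ hK io ξ T hT => ?_⟩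
  have h1 : T₀ ≤ T := (le_max_left _ _).trans hT
  have h2 : T₁ ≤ T := (le_max_right _ _).trans hT
  have hT1 : 1 ≤ T := by linarith
  refine (H K hK io ξ T h1).mono le_rfl le_rfl ?_
  rintro _ ⟨s, ⟨hs1, hs2, R, hR1, hR2, m₀, hR3, hR4⟩, rfl⟩
  refine ⟨hs2, s, hs1, rfl, ?_⟩
  refine relK_of_poly1 K io ξ (fun i => f i fun i => io (s i)) (T ^ (k : ℝ)) (T ^ (-B)) R hR1 hR2 m₀ hR3 ?_
  rw [MvPolynomial.aeval_eq_eval]
  refine hR4.trans (mul_le_mul_of_nonneg_right ?_ (norm_nonneg _))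
  exact Real.rpow_le_rpow_of_exponent_le hT1 (neg_le_neg (hT₁ T h2))

variable {K X σ : Type} [Field K] [NumberField K] [Fintype X]

/-- **The exceptional points**: some polynomial is small in comparison with one of its coefficients at the values at all
conjugates -/
def ExcA (U : (K →+* ℂ) → Set (X → ℂ)) (f : (K →+* ℂ) → σ → (X → ℂ) → ℂ) (ψ : ℝ → ℝ)
    (L : Type) [Field L] [NumberField L] (io : L →+* ℂ) (k : ℕ) (ξ : Fin k → ℂ) (T : ℝ) : Set (X → K) :=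
  {s | (∀ φ : K →+* ℂ, (fun j => φ (s j)) ∈ InnerM (U φ) k) ∧ ∃ R : MvPolynomial ((K →+* ℂ) × σ) ℂ,
    (∀ y, R.degreeOf y ≤ k) ∧
    (∀ m, ∃ c : Fin k → 𝓞 L, (∀ i (φ : L →+* ℂ), ‖φ (c i : L)‖ ≤ T ^ (k : ℝ)) ∧
      R.coeff m = ∑ i, ξ i * io (c i : L)) ∧
    ∃ m₀, R.coeff m₀ ≠ 0 ∧
      ‖MvPolynomial.eval (fun q : (K →+* ℂ) × σ => f q.1 q.2 fun j => q.1 (s j)) R‖ ≤ T ^ (-ψ T) * ‖R.coeff m₀‖}

theorem conj_near [Fintype σ] [DecidableEq X] [Nonempty X] [DecidableEq σ]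
    {U : (K →+* ℂ) → Set (X → ℂ)} {f : (K →+* ℂ) → σ → (X → ℂ) → ℂ}
    (hU : ∀ φ, IsPreconnected (U φ)) (hUo : ∀ φ, IsOpen (U φ)) (hne : ∀ φ, (U φ).Nonempty)
    (hf : ∀ φ i, AnalyticOnNhd ℂ (f φ i) (U φ)) (hI : ∀ φ, Ind (U φ) (f φ)) {ψ : ℝ → ℝ}
    (hψ : Tendsto ψ atTop atTop) :
    ∃ (ω : ℝ → ℕ) (C T₀ : ℝ), 0 ≤ C ∧ Tendsto ω atTop atTop ∧ Monotone ω ∧ ∀ T, T₀ ≤ T → 0 < ω T ∧
      ∀ (L : Type) [Field L] [NumberField L], Module.finrank ℚ L ≤ ω T → ∀ io : L →+* ℂ,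
        (∀ φ : K →+* ℂ, ∃ φ' : K →+* L, io.comp φ' = φ) → ∀ (ξ : Fin (ω T) → ℂ) (b : X → 𝓞 K),
        (∀ j, b j ≠ 0 ∧ house (b j : K) ≤ T) →
        {a : X → 𝓞 K | (∀ j, house (a j : K) ≤ T) ∧
          (fun j => (a j : K) / (b j : K)) ∈ ExcA U f ψ L io (ω T) ξ T}.Finite ∧
        ({a : X → 𝓞 K | (∀ j, house (a j : K) ≤ T) ∧
          (fun j => (a j : K) / (b j : K)) ∈ ExcA U f ψ L io (ω T) ξ T}.ncard : ℝ) ≤
          C * T ^ ((Module.finrank ℚ K * Fintype.card X : ℝ) - 1 + 2 * ((ω T : ℝ)⁻¹)) := by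
  classical
  obtain ⟨C, hC, hCU⟩ := N227.CF.up K X
  have hU' := prodU_conn hU
  have hUo' := prodU_open hUo
  have hne' := prodU_ne hne
  have hF' := prodF_an (f := f) (U := U) hf
  obtain ⟨ω, T₀, h1, h2, h3⟩ := few_near hU' hF' (ind_prod hUo hne hI) hψ
  refine ⟨ω, C, max T₀ 1, hC, h1, h2, fun T hT => ⟨(h3 T ((le_max_left _ _).trans hT)).1, ?_⟩⟩
  have hT1 : 1 ≤ T := (le_max_right _ _).trans hT
  have hTp : 0 < T := by linarith
  obtain ⟨hk, h4⟩ := h3 T ((le_max_left _ _).trans hT)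
  generalize ω T = k at hk h4 ⊢
  intro L _ _ hL io hemb ξ b hb
  obtain ⟨⟨Φs, hΦ1, hΦ2, hΦ3⟩, -, -⟩ := h4 L hL io ξ
  choose φ' hφ' using hemb
  -- the points
  have key : {a : X → 𝓞 K | (∀ j, house (a j : K) ≤ T) ∧
      (fun j => (a j : K) / (b j : K)) ∈ ExcA U f ψ L io k ξ T} ⊆
      ⋃ Φ ∈ Φs, {a : X → 𝓞 K | (∀ j, house (a j : K) ≤ T) ∧
        MvPolynomial.eval (fun p => p.1 (a p.2 : K) / p.1 (b p.2 : K)) Φ = 0} := by
    rintro a ⟨ha, ha1, R, ha2, ha3, m₀, ha0, ha4⟩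
    have hφs : ∀ (φ : K →+* ℂ) (x : K), io (φ' φ x) = φ x := fun φ x => RingHom.congr_fun (hφ' φ) x
    let t : (K →+* ℂ) × X → L := fun p => φ' p.1 ((a p.2 : K) / (b p.2 : K))
    have ht : (fun p => io (t p)) = fun p : (K →+* ℂ) × X => p.1 ((a p.2 : K) / (b p.2 : K)) := by
      funext p
      exact hφs _ _
    have hmem : (fun p => io (t p)) ∈ (fun (s : (K →+* ℂ) × X → L) i => io (s i)) ''
        ExcS (prodU U) (prodF f) ψ L io k ξ T := by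
      refine ⟨t, ⟨?_, ?_, R, ha2, ha3, m₀, ha0, ?_⟩, rfl⟩
      · rintro ⟨φ, j⟩
        let ψ : 𝓞 K →+* 𝓞 L := RingOfIntegers.mapRingHom (φ' φ)
        have hψ : ∀ x : 𝓞 K, ((ψ x : 𝓞 L) : L) = φ' φ (x : K) := fun x => rfl
        refine ⟨ψ (a j), ψ (b j), ?_, ?_, ?_, ?_⟩
        · intro h0
          have h5 := congrArg (fun x : 𝓞 L => (x : L)) h0
          simp only [hψ] at h5
          have h6 : φ' φ (b j : K) = 0 := h5
          rw [map_eq_zero] at h6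
          exact (hb j).1 (RingOfIntegers.coe_eq_zero_iff.1 h6)
        · rw [hψ]
          exact house_le_of_map _ _ (ha j)
        · rw [hψ]
          exact house_le_of_map _ _ (hb j).2
        · rw [hψ, hψ]
          exact map_div₀ _ _ _
      · rw [ht]
        exact innerM_prod fun φ => ha1 φ
      · rw [ht]
        exact ha4
    obtain ⟨Φ, hΦ, hΦ0⟩ := hΦ3 _ hmem
    rw [Set.mem_iUnion₂]
    refine ⟨Φ, hΦ, ha, ?_⟩
    rw [ht] at hΦ0
    rw [← hΦ0]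
    congr 2
    funext p
    rw [map_div₀]
  have hfinΦ : ∀ Φ ∈ Φs, {a : X → 𝓞 K | (∀ j, house (a j : K) ≤ T) ∧
      MvPolynomial.eval (fun p => p.1 (a p.2 : K) / p.1 (b p.2 : K)) Φ = 0}.Finite := fun Φ hΦ =>
    (hCU Φ (hΦ2 Φ hΦ).1 T hT1 b fun j => (hb j).1).1
  have hfin := Set.Finite.biUnion (Finset.finite_toSet Φs) hfinΦ
  refine ⟨hfin.subset key, ?_⟩
  have h5 : ({a : X → 𝓞 K | (∀ j, house (a j : K) ≤ T) ∧
      (fun j => (a j : K) / (b j : K)) ∈ ExcA U f ψ L io k ξ T}.ncard : ℝ) ≤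
      ∑ Φ ∈ Φs, ({a : X → 𝓞 K | (∀ j, house (a j : K) ≤ T) ∧
        MvPolynomial.eval (fun p => p.1 (a p.2 : K) / p.1 (b p.2 : K)) Φ = 0}.ncard : ℝ) := by
    have h6 := (Set.ncard_le_ncard key hfin).trans (Finset.set_ncard_biUnion_le _ _)
    exact_mod_cast h6
  refine h5.trans ?_
  set N := Module.finrank ℚ K * Fintype.card X with hN
  have hN1 : 1 ≤ N := Nat.mul_pos Module.finrank_pos Fintype.card_pos
  have h7 : ∀ Φ ∈ Φs, ({a : X → 𝓞 K | (∀ j, house (a j : K) ≤ T) ∧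
      MvPolynomial.eval (fun p => p.1 (a p.2 : K) / p.1 (b p.2 : K)) Φ = 0}.ncard : ℝ) ≤
      C * T ^ ((k : ℝ)⁻¹) * T ^ (N - 1) := by
    intro Φ hΦ
    refine (hCU Φ (hΦ2 Φ hΦ).1 T hT1 b fun j => (hb j).1).2.trans ?_
    refine mul_le_mul_of_nonneg_right (mul_le_mul_of_nonneg_left ?_ hC) (by positivity)
    refine le_trans ?_ (Nat.floor_le (by positivity : (0 : ℝ) ≤ T ^ ((k : ℝ)⁻¹)))
    exact_mod_cast (hΦ2 Φ hΦ).2
  refine (Finset.sum_le_sum h7).trans ?_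
  rw [Finset.sum_const, nsmul_eq_mul]
  have h8 : (Φs.card : ℝ) ≤ T ^ ((k : ℝ)⁻¹) := by
    refine le_trans ?_ (Nat.floor_le (by positivity : (0 : ℝ) ≤ T ^ ((k : ℝ)⁻¹)))
    exact_mod_cast hΦ1
  have h9 : (T : ℝ) ^ ((Module.finrank ℚ K * Fintype.card X : ℝ) - 1 + 2 * ((k : ℝ)⁻¹)) =
      T ^ ((k : ℝ)⁻¹) * T ^ ((k : ℝ)⁻¹) * T ^ (N - 1) := by
    rw [← Real.rpow_natCast T (N - 1), ← Real.rpow_add hTp, ← Real.rpow_add hTp]
    congr 1
    rw [Nat.cast_sub hN1, hN]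
    push_cast
    ring
  rw [h9]
  calc (Φs.card : ℝ) * (C * T ^ ((k : ℝ)⁻¹) * T ^ (N - 1)) ≤
        T ^ ((k : ℝ)⁻¹) * (C * T ^ ((k : ℝ)⁻¹) * T ^ (N - 1)) := mul_le_mul_of_nonneg_right h8 (by positivity)
    _ = _ := by ring

end Pool.Agent.N207.NR
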